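import Pool.Agent.H.MP_d4b900_gt.Final

set_option autoImplicit false

open Filter Topology Set
open Pool.Agent.H.MP_d4b900_gt

namespace Pool.Agent.Results.MP_d4b900_gt.OpenCovers

/-- every countable open cover has a finite subcover -/
def CountablyCompact (α : Type) [TopologicalSpace α] : Prop :=
  ∀ U : ℕ → Set α, (∀ n, IsOpen (U n)) → (⋃ n, U n) = univ →
    ∃ F : Finset ℕ, (⋃ n ∈ F, U n) = univ

/-- the topology of pointwise convergence on the continuous real functions -/
@[instance_reducible] def cp (α : Type) [TopologicalSpace α] : TopologicalSpace C(α, ℝ) :=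
  TopologicalSpace.induced (fun f : C(α, ℝ) => (f : α → ℝ)) inferInstance

lemma countablyCompact_of_cluster {α : Type} [TopologicalSpace α]
    (h : ∀ u : ℕ → α, ∃ x : α, MapClusterPt x atTop u) : CountablyCompact α := by
  intro U hU hcov
  by_contra hcon
  push Not at hcon
  have h1 : ∀ n : ℕ, ∃ x : α, x ∉ ⋃ k ∈ Finset.range (n + 1), U k := by
    intro n
    by_contra h2
    push Not at h2
    exact hcon (Finset.range (n + 1)) (eq_univ_of_forall h2)
  choose u hu using h1
  obtain ⟨x, hx⟩ := h u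
  have hx' : x ∈ ⋃ n, U n := by rw [hcov]; exact mem_univ x
  obtain ⟨k, hk⟩ := mem_iUnion.1 hx'
  rw [mapClusterPt_iff_frequently] at hx
  obtain ⟨m, hm, hm'⟩ := ((hx _ ((hU k).mem_nhds hk)).and_eventually (eventually_ge_atTop k)).exists
  apply hu m
  exact mem_iUnion₂.2 ⟨k, Finset.mem_range.2 (by omega), hm⟩

lemma not_countablyCompact {α : Type} [TopologicalSpace α] (u : ℕ → α)
    (h : ∀ x : α, ¬ MapClusterPt x atTop u) : ¬ CountablyCompact α := by
  intro hc
  obtain ⟨F, hF⟩ := hc (fun N => (closure (u '' Ici N))ᶜ) (fun N => isClosed_closure.isOpen_compl) (by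
    apply eq_univ_of_forall
    intro x
    have hx := h x
    rw [mapClusterPt_iff_frequently] at hx
    push Not at hx
    obtain ⟨s, hs, hs'⟩ := hx
    rw [eventually_atTop] at hs'
    obtain ⟨N, hN⟩ := hs'
    refine mem_iUnion.2 ⟨N, fun hcl => ?_⟩
    rw [mem_closure_iff_nhds] at hcl
    obtain ⟨y, hy, m, hm, rfl⟩ := hcl s hs
    exact hN m hm hy)
  have h1 : u (F.sup id) ∈ ⋃ N ∈ F, (closure (u '' Ici N))ᶜ := by rw [hF]; exact mem_univ _
  obtain ⟨N, hN, hN'⟩ := mem_iUnion₂.1 h1
  exact hN' (subset_closure ⟨F.sup id, Finset.le_sup (f := id) hN, rfl⟩)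

lemma isCompact_clo (C : BA) (hC : Idl C.1) : IsCompact {x : X0 | x.1 C = true} := by
  rw [Topology.IsInducing.subtypeVal.isCompact_iff]
  have h1 : (Subtype.val '' {x : X0 | x.1 C = true}) = ev '' {𝒱 : Ultrafilter (ℕ × ℕ) | C.1 ∈ 𝒱} := by
    ext χ
    constructor
    · rintro ⟨x, hx, rfl⟩
      obtain ⟨𝒱, h𝒱, -⟩ := x.2
      refine ⟨𝒱, ?_, h𝒱⟩
      have hx' : x.1 C = true := hx
      rw [← h𝒱] at hx'
      exact ev_true.1 hx'
    · rintro ⟨𝒱, hχ, rfl⟩
      exact ⟨⟨ev 𝒱, 𝒱, rfl, C, hC, hχ⟩, ev_true.2 hχ, rfl⟩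
  rw [h1]
  exact (ultrafilter_isClosed_basic C.1).isCompact.image continuous_ev

instance : LocallyCompactSpace X0 := by
  have : WeaklyLocallyCompactSpace X0 := by
    refine ⟨fun x => ?_⟩
    obtain ⟨𝒱, h𝒱, C, hC, hCV⟩ := x.2
    refine ⟨{y : X0 | y.1 C = true}, isCompact_clo C hC, ?_⟩
    apply IsOpen.mem_nhds
    · have hc : Continuous (fun y : X0 => y.1 C) := (continuous_apply C).comp continuous_subtype_val
      exact (isOpen_discrete ({true} : Set Bool)).preimage hc
    · show x.1 C = true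
      rw [← h𝒱]
      exact ev_true.2 hCV
  infer_instance

lemma locallyCompact_V : LocallyCompactSpace (X0 ⊕ OnePoint E) := by
  have : WeaklyLocallyCompactSpace (X0 ⊕ OnePoint E) := by
    refine ⟨fun x => ?_⟩
    rcases x with x | z
    · obtain ⟨K, hK, hx⟩ := exists_compact_mem_nhds x
      exact ⟨Sum.inl '' K, hK.image continuous_inl, Topology.IsOpenEmbedding.inl.isOpenMap.image_mem_nhds hx⟩
    · exact ⟨Sum.inr '' (univ : Set (OnePoint E)), isCompact_univ.image continuous_inr,
        Topology.IsOpenEmbedding.inr.isOpenMap.image_mem_nhds univ_mem⟩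
  infer_instance

/-- There are a locally compact, countably compact space and a Tychonoff space that is not countably
compact with linearly homeomorphic spaces of continuous functions. -/
theorem result :
    ∃ (X Y : Type) (_ : TopologicalSpace X) (_ : TopologicalSpace Y),
      T35Space X ∧ T35Space Y ∧ LocallyCompactSpace X ∧ CountablyCompact X ∧
      ¬ CountablyCompact Y ∧
      ∃ T : C(X, ℝ) ≃ₗ[ℝ] C(Y, ℝ), @Continuous _ _ (cp X) (cp Y) T ∧
        @Continuous _ _ (cp Y) (cp X) T.symm := by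
  refine ⟨V, YY, inferInstance, inferInstance, inferInstance, inferInstance, ?_, ?_, ?_, T, ?_, ?_⟩
  · exact locallyCompact_V
  · exact countablyCompact_of_cluster cluster_V
  · exact not_countablyCompact bad no_cluster
  · exact continuous_T
  · exact continuous_T_symm

end Pool.Agent.Results.MP_d4b900_gt.OpenCovers
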